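import Pool.Agent.Helper78.GL.Spec

set_option autoImplicit false

open MeasureTheory Metric Set Filter Topology

namespace Helper72.GL

open Helper78.GL

/-- the Laplacian through the second Frechet derivative -/
theorem lap_eq {g : ℂ → ℝ} {w : ℂ} (hg : ContDiffAt ℝ 2 g w) :
    lap g w = (fderiv ℝ (fderiv ℝ g) w 1) 1 + (fderiv ℝ (fderiv ℝ g) w Complex.I) Complex.I := by
  have hd : DifferentiableAt ℝ (fderiv ℝ g) w :=
    (hg.fderiv_right (m := 1) (by norm_num)).differentiableAt (by norm_num)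
  have key : ∀ v : ℂ, fderiv ℝ (fun z => fderiv ℝ g z v) w v = (fderiv ℝ (fderiv ℝ g) w v) v := by
    intro v
    have h := (hd.hasFDerivAt.clm_apply (hasFDerivAt_const v w)).fderiv
    rw [h]
    simp
  unfold lap
  have e1 : dX (dX g) w = fderiv ℝ (fun z => fderiv ℝ g z 1) w 1 := rfl
  have e2 : dY (dY g) w = fderiv ℝ (fun z => fderiv ℝ g z Complex.I) w Complex.I := rfl
  rw [e1, e2, key, key]

theorem bilin (B : ℂ →L[ℝ] ℂ →L[ℝ] ℝ) (c : ℂ) :
    B c c + B (c * Complex.I) (c * Complex.I) = ‖c‖ ^ 2 * (B 1 1 + B Complex.I Complex.I) := by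
  have hc : c = c.re • (1 : ℂ) + c.im • Complex.I := by
    simp [Complex.re_add_im]
  have hcI : c * Complex.I = (-c.im) • (1 : ℂ) + c.re • Complex.I := by
    apply Complex.ext <;> simp
  have hn : ‖c‖ ^ 2 = c.re ^ 2 + c.im ^ 2 := by
    rw [← Complex.normSq_eq_norm_sq, Complex.normSq_apply]
    ring
  rw [hcI]
  have e : B c c = B (c.re • (1 : ℂ) + c.im • Complex.I) (c.re • (1 : ℂ) + c.im • Complex.I) := by
    rw [← hc]
  rw [e, hn]
  simp only [map_add, map_smul, ContinuousLinearMap.add_apply, ContinuousLinearMap.smul_apply,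
    smul_eq_mul]
  ring

theorem cmp_thm : S_CMP := by
  intro g τ s z hs hz hτ hg
  obtain ⟨U, hU, hzU, hgU⟩ := hg
  have hsn : s ∈ 𝓝 z := hs.mem_nhds hz
  have hτa : ∀ t ∈ s, AnalyticAt ℂ τ t := fun t ht => hτ.analyticAt (hs.mem_nhds ht)
  have hτc : ContDiffAt ℝ 2 τ z := ((hτa z hz).contDiffAt (n := 2)).restrict_scalars ℝ
  have hgc : ∀ w ∈ U, ContDiffAt ℝ 2 g w := fun w hw => hgU.contDiffAt (hU.mem_nhds hw)
  have hcomp : ContDiffAt ℝ 2 (fun t => g (τ t)) z := (hgc _ hzU).comp z hτc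
  refine ⟨hcomp, ?_⟩
  -- neighbourhood where everything is fine
  have hnear : ∀ᶠ t in 𝓝 z, t ∈ s ∧ τ t ∈ U := by
    have h1 : ∀ᶠ t in 𝓝 z, t ∈ s := hsn
    have h2 : ∀ᶠ t in 𝓝 z, τ t ∈ U :=
      (hτa z hz).continuousAt.eventually (hU.mem_nhds hzU)
    exact h1.and h2
  have hfd : ∀ t, t ∈ s → τ t ∈ U → ∀ v : ℂ,
      fderiv ℝ (fun t => g (τ t)) t v = fderiv ℝ g (τ t) (deriv τ t * v) := by
    intro t ht htU v
    have h1 : HasFDerivAt g (fderiv ℝ g (τ t)) (τ t) :=
      ((hgc _ htU).differentiableAt (by norm_num)).hasFDerivAt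
    have h2 : HasDerivAt τ (deriv τ t) t := (hτa t ht).differentiableAt.hasDerivAt
    have h3 := h1.comp t (h2.hasFDerivAt.restrictScalars ℝ)
    have h4 : fderiv ℝ (fun t => g (τ t)) t = _ := h3.fderiv
    rw [h4]
    simp [mul_comm]
  have hG : HasFDerivAt (fderiv ℝ g) (fderiv ℝ (fderiv ℝ g) (τ z)) (τ z) :=
    (((hgc _ hzU).fderiv_right (m := 1) (by norm_num)).differentiableAt (by norm_num)).hasFDerivAt
  have hτ' : HasDerivAt τ (deriv τ z) z := (hτa z hz).differentiableAt.hasDerivAt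
  have hT : HasDerivAt (deriv τ) (deriv (deriv τ) z) z :=
    (hτa z hz).deriv.differentiableAt.hasDerivAt
  have hGτ : HasFDerivAt (fun t => fderiv ℝ g (τ t)) _ z :=
    hG.comp z (hτ'.hasFDerivAt.restrictScalars ℝ)
  have key : ∀ v : ℂ, fderiv ℝ (fun t => fderiv ℝ (fun t => g (τ t)) t v) z v =
      (fderiv ℝ (fderiv ℝ g) (τ z) (deriv τ z * v)) (deriv τ z * v) +
        fderiv ℝ g (τ z) (deriv (deriv τ) z * v * v) := by
    intro v
    have hev : (fun t => fderiv ℝ (fun t => g (τ t)) t v) =ᶠ[𝓝 z]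
        fun t => fderiv ℝ g (τ t) (deriv τ t * v) := by
      filter_upwards [hnear] with t ht
      exact hfd t ht.1 ht.2 v
    rw [hev.fderiv_eq]
    have hTv : HasDerivAt (fun t => deriv τ t * v) (deriv (deriv τ) z * v) z := hT.mul_const v
    have h5 := (hGτ.clm_apply (hTv.hasFDerivAt.restrictScalars ℝ)).fderiv
    rw [h5]
    simp only [ContinuousLinearMap.add_apply, ContinuousLinearMap.comp_apply,
      ContinuousLinearMap.flip_apply, ContinuousLinearMap.coe_restrictScalars']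
    simp [mul_comm, mul_left_comm]
    ring
  have e1 : lap (fun t => g (τ t)) z =
      fderiv ℝ (fun t => fderiv ℝ (fun t => g (τ t)) t 1) z 1 +
      fderiv ℝ (fun t => fderiv ℝ (fun t => g (τ t)) t Complex.I) z Complex.I := rfl
  rw [e1, key, key, lap_eq (hgc _ hzU), ← bilin]
  have e2 : deriv (deriv τ) z * Complex.I * Complex.I = - (deriv (deriv τ) z * 1 * 1) := by
    rw [mul_assoc, Complex.I_mul_I]
    ring
  rw [e2, map_neg, mul_one (deriv τ z)]
  ring

end Helper72.GL
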