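import Pool.Agent.Helper78.GL.Spec
import Pool.Agent.Helper78.GL.AvgLib

set_option autoImplicit false

open MeasureTheory Metric Set Filter Topology

namespace Helper72.GL

open Helper78.GL

/-- the cut-off -/
noncomputable def tau (s : ℝ) : ℝ := √(1 + (min s 0) ^ 2) - 1

theorem hasDerivAt_minsq (s : ℝ) :
    HasDerivAt (fun s : ℝ => (min s 0) ^ 2) (2 * min s 0) s := by
  rcases lt_trichotomy s 0 with hs | hs | hs
  · have h : (fun s : ℝ => (min s 0) ^ 2) =ᶠ[𝓝 s] fun s => s ^ 2 := by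
      filter_upwards [Iio_mem_nhds hs] with t ht
      rw [min_eq_left (le_of_lt ht)]
    have h2 := (hasDerivAt_pow 2 s).congr_of_eventuallyEq h
    rw [min_eq_left hs.le]
    simpa using h2
  · subst hs
    rw [hasDerivAt_iff_isLittleO_nhds_zero]
    have h1 : (fun h : ℝ => (min (0 + h) 0) ^ 2 - (min (0 : ℝ) 0) ^ 2 - h • (2 * min (0 : ℝ) 0))
        =O[𝓝 0] fun h : ℝ => h ^ 2 := by
      apply Asymptotics.IsBigO.of_bound 1
      apply Eventually.of_forall
      intro h
      simp only [zero_add, min_self, mul_zero, smul_zero, sub_zero, one_mul]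
      have : ‖(min h 0) ^ 2 - 0 ^ 2‖ ≤ ‖h ^ 2‖ := by
        rw [Real.norm_eq_abs, Real.norm_eq_abs]
        have e : (min h 0) ^ 2 - 0 ^ 2 = (min h 0) ^ 2 := by ring
        rw [e, abs_of_nonneg (sq_nonneg _), abs_of_nonneg (sq_nonneg _)]
        rcases le_total h 0 with h0 | h0
        · rw [min_eq_left h0]
        · rw [min_eq_right h0]
          have := sq_nonneg h
          simpa using this
      simpa using this
    exact h1.trans_isLittleO (Asymptotics.isLittleO_pow_id one_lt_two)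
  · have h : (fun s : ℝ => (min s 0) ^ 2) =ᶠ[𝓝 s] fun _ => (0 : ℝ) := by
      filter_upwards [Ioi_mem_nhds hs] with t ht
      rw [min_eq_right (le_of_lt ht)]
      norm_num
    have h2 := (hasDerivAt_const s (0 : ℝ)).congr_of_eventuallyEq h
    rw [min_eq_right hs.le, mul_zero]
    exact h2

theorem pos1 (s : ℝ) : 0 < 1 + (min s 0) ^ 2 := by positivity

theorem hasDerivAt_tau (s : ℝ) : HasDerivAt tau (min s 0 / √(1 + (min s 0) ^ 2)) s := by
  have h1 : HasDerivAt (fun s : ℝ => 1 + (min s 0) ^ 2) (2 * min s 0) s :=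
    (hasDerivAt_minsq s).const_add 1
  have h2 := (h1.sqrt (pos1 s).ne').sub_const 1
  have e : 2 * min s 0 / (2 * √(1 + (min s 0) ^ 2)) = min s 0 / √(1 + (min s 0) ^ 2) := by
    rw [mul_div_mul_left _ _ (by norm_num : (2 : ℝ) ≠ 0)]
  rw [e] at h2
  exact h2

theorem tau_contDiff : ContDiff ℝ 1 tau := by
  rw [contDiff_one_iff_deriv]
  refine ⟨fun s => (hasDerivAt_tau s).differentiableAt, ?_⟩
  have e : deriv tau = fun s => min s 0 / √(1 + (min s 0) ^ 2) := by
    funext s
    exact (hasDerivAt_tau s).deriv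
  rw [e]
  apply Continuous.div
  · fun_prop
  · fun_prop
  · intro s
    exact (Real.sqrt_pos.2 (pos1 s)).ne'

theorem tau_zero : tau 0 = 0 := by
  unfold tau
  simp

theorem tau_deriv (s : ℝ) : -1 ≤ deriv tau s ∧ deriv tau s ≤ 0 := by
  rw [(hasDerivAt_tau s).deriv]
  have hp := Real.sqrt_pos.2 (pos1 s)
  constructor
  · rw [le_div_iff₀ hp]
    have : |min s 0| ≤ √(1 + (min s 0) ^ 2) := by
      apply Real.abs_le_sqrt
      linarith
    have := neg_abs_le (min s 0)
    linarith
  · apply div_nonpos_of_nonpos_of_nonneg (min_le_right _ _) hp.le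

theorem tau_nonneg (s : ℝ) : 0 ≤ tau s := by
  unfold tau
  have : (1 : ℝ) ≤ √(1 + (min s 0) ^ 2) := by
    apply Real.le_sqrt_of_sq_le
    have := sq_nonneg (min s 0)
    linarith
  linarith

theorem tau_ge (s : ℝ) : -1 - tau s ≤ s := by
  unfold tau
  have h : |min s 0| ≤ √(1 + (min s 0) ^ 2) := by
    apply Real.abs_le_sqrt
    linarith
  have h1 := neg_abs_le (min s 0)
  have h2 := min_le_left s 0
  linarith

theorem neg_thm (hC : S_COMP) (hCh : S_CHAIN) : S_NEG := by
  intro P M T _ μ p₀ r₀ v hμ hB hv p r hr hrp ε hε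
  obtain ⟨hr0, hr0', C, hCb⟩ := hCh P M T μ p₀ r₀ hμ hB p r hr hrp
  obtain ⟨hv1, -, hv3⟩ := hv
  obtain ⟨hr00, hr00', -⟩ := hB
  obtain ⟨N, hN⟩ := hv3 (ε / (|C| + 1)) (by positivity)
  refine ⟨N, fun n hn => ?_⟩
  obtain ⟨hwT, hwD⟩ := hC M T μ hμ tau tau_contDiff tau_zero tau_deriv (v n) (hv1 n)
  set w : M → ℝ := fun x => tau (v n x) with hw
  have h1 := hN n hn w hwT
  -- nonnegativity of the base functional on w
  have hcont : ∀ (q : M) (u : M → ℝ), T.Smooth u →
      ContinuousOn (fun z => u (T.Phi q z)) (ball 0 (T.rho q)) := fun q u hu => (hu q).continuousOn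
  have hρ : ∀ q, 0 < T.rho q := T.rho_pos
  have hsub : ∀ (q : M) (s : ℝ), s < T.rho q / 4 → closedBall (0 : ℂ) s ⊆ ball 0 (T.rho q) := by
    intro q s hs
    apply closedBall_subset_ball
    have := hρ q
    linarith
  have hbase : 0 ≤ base P T p₀ r₀ w := by
    unfold base
    apply avg_ge P hr00.le ((hcont p₀ w hwT.1).mono (hsub p₀ r₀ hr00'))
    intro y _
    exact tau_nonneg _
  have hd : √(T.D μ w w) ≤ ε / (|C| + 1) := by
    rcases le_or_gt (T.D μ w w) 0 with h0 | h0
    · rw [Real.sqrt_eq_zero_of_nonpos h0]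
      positivity
    · have h2 : T.D μ w w ≤ ε / (|C| + 1) * √(T.D μ w w) := by
        have := (abs_le.1 h1).1
        linarith
      have h3 : √(T.D μ w w) * √(T.D μ w w) = T.D μ w w := Real.mul_self_sqrt h0.le
      have h4 := Real.sqrt_pos.2 h0
      by_contra hcon
      push Not at hcon
      nlinarith
  have h5 : |base P T p r w| ≤ ε := by
    calc |base P T p r w| ≤ C * √(T.D μ w w) := hCb w hwT
      _ ≤ |C| * √(T.D μ w w) := by
          apply mul_le_mul_of_nonneg_right (le_abs_self C) (Real.sqrt_nonneg _)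
      _ ≤ |C| * (ε / (|C| + 1)) := by
          apply mul_le_mul_of_nonneg_left hd (abs_nonneg C)
      _ ≤ ε := by
          rw [mul_div_assoc', div_le_iff₀ (by positivity)]
          nlinarith [abs_nonneg C]
  have hcv : ContinuousOn (fun z => v n (T.Phi p z)) (closedBall 0 r) :=
    (hcont p (v n) (hv1 n).1).mono (hsub p r hrp)
  have hcw : ContinuousOn (fun z => w (T.Phi p z)) (closedBall 0 r) :=
    (hcont p w hwT.1).mono (hsub p r hrp)
  have h6 : -1 ≤ avg P.χ (fun z => v n (T.Phi p z) + w (T.Phi p z)) 0 r := by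
    apply avg_ge P hr.le (hcv.add hcw)
    intro y _
    have := tau_ge (v n (T.Phi p y))
    show -1 ≤ v n (T.Phi p y) + tau (v n (T.Phi p y))
    linarith
  rw [avg_add P hr.le hcv hcw] at h6
  have h7 : avg P.χ (fun z => w (T.Phi p z)) 0 r ≤ ε := (abs_le.1 h5).2
  linarith

end Helper72.GL
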